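import Mathlib

open Finset

namespace Pool.Agent.Results.MP_55034c_pr.NoDominance

noncomputable section

/-- `P` is an irreducible transition matrix on the finite set `V`, reversible with respect to the
positive probability distribution `p` (its stationary distribution). -/
structure IsRevChain {V : Type} [Fintype V] (P : V → V → ℝ) (p : V → ℝ) : Prop where
  nonneg : ∀ x y, 0 ≤ P x y
  row : ∀ x, ∑ y, P x y = 1
  irred : ∀ x y, Relation.ReflTransGen (fun a b => 0 < P a b) x y
  pos : ∀ x, 0 < p x
  sum : ∑ x, p x = 1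
  rev : ∀ x y, p x * P x y = p y * P y x

/-- Probability `P_p(X(0) = x 0, …, X(t) = x t)` of a trajectory of length `t`. -/
def traj {V : Type} (P : V → V → ℝ) (p : V → ℝ) (t : ℕ) (x : Fin (t + 1) → V) : ℝ :=
  p (x 0) * ∏ i : Fin t, P (x i.castSucc) (x i.succ)

/-- `P_p(|R(t)| ≥ y)` for a single chain started from `p`. -/
def probSingle {V : Type} [Fintype V] [DecidableEq V] (P : V → V → ℝ) (p : V → ℝ) (t y : ℕ) :
    ℝ :=
  ∑ x : Fin (t + 1) → V, if y ≤ (univ.image x).card then traj P p t x else 0

/-- `P_{p^k}(|⋃_i R_i(t_i)| ≥ y)` for `k` independent chains started from `p`. -/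
def probUnion {V : Type} [Fintype V] [DecidableEq V] (P : V → V → ℝ) (p : V → ℝ) {k : ℕ}
    (t : Fin k → ℕ) (y : ℕ) : ℝ :=
  ∑ x : (∀ i : Fin k, Fin (t i + 1) → V),
    if y ≤ (univ.biUnion fun i => univ.image (x i)).card then ∏ i, traj P p (t i) (x i) else 0

section general

variable {V : Type} [Fintype V] [DecidableEq V] {P : V → V → ℝ} {p : V → ℝ}

omit [DecidableEq V] in
theorem traj_nonneg (h : IsRevChain P p) (t : ℕ) (x : Fin (t + 1) → V) : 0 ≤ traj P p t x :=
  mul_nonneg (h.pos _).le (Finset.prod_nonneg fun i _ => h.nonneg _ _)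

omit [Fintype V] [DecidableEq V] in
theorem traj_snoc (t : ℕ) (x : Fin (t + 1) → V) (y : V) :
    traj P p (t + 1) (Fin.snoc (α := fun _ => V) x y) = traj P p t x * P (x (Fin.last t)) y := by
  rw [traj, traj, Fin.prod_univ_castSucc]
  have e0 : Fin.snoc (α := fun _ => V) x y 0 = x 0 := by
    rw [show (0 : Fin (t + 1 + 1)) = (0 : Fin (t + 1)).castSucc from rfl, Fin.snoc_castSucc]
  rw [e0, ← mul_assoc]
  congr 1
  · congr 1
    refine Finset.prod_congr rfl fun i _ => ?_
    rw [Fin.snoc_castSucc, Fin.succ_castSucc, Fin.snoc_castSucc]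
  · rw [Fin.snoc_castSucc, Fin.succ_last, Fin.snoc_last]

omit [DecidableEq V] in
theorem sum_snoc (t : ℕ) (F : (Fin (t + 1 + 1) → V) → ℝ) :
    ∑ x, F x = ∑ x : Fin (t + 1) → V, ∑ y : V, F (Fin.snoc (α := fun _ => V) x y) := by
  rw [← (Fin.snocEquiv fun _ : Fin (t + 1 + 1) => V).sum_comp, Fintype.sum_prod_type_right]
  rfl

/-- stationarity of the marginals -/
theorem marginal (h : IsRevChain P p) (t : ℕ) (i : Fin (t + 1)) (v : V) :
    ∑ x : Fin (t + 1) → V, (if x i = v then traj P p t x else 0) = p v := by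
  have hstat : ∀ v, ∑ u, p u * P u v = p v := by
    intro v
    simp only [h.rev _ v]
    rw [← Finset.mul_sum, h.row, mul_one]
  induction t generalizing v with
  | zero =>
    have hi : i = 0 := by
      apply Fin.ext
      have := i.isLt
      simp only [Fin.val_zero]
      omega
    subst hi
    have e : ∀ x : Fin (0 + 1) → V, traj P p 0 x = p (x 0) := by
      intro x; simp [traj]
    simp only [e]
    rw [← (Equiv.funUnique (Fin 1) V).symm.sum_comp]
    simp
  | succ t ih =>
    rw [sum_snoc]
    simp only [traj_snoc]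
    refine Fin.lastCases ?_ (fun i => ?_) i
    · simp only [Fin.snoc_last, Finset.sum_ite_eq', Finset.mem_univ, if_true]
      have e : ∀ x : Fin (t + 1) → V, traj P p t x * P (x (Fin.last t)) v =
          ∑ u, (if x (Fin.last t) = u then traj P p t x else 0) * P u v := by
        intro x
        simp only [ite_mul, zero_mul, Finset.sum_ite_eq, Finset.mem_univ, if_true]
      simp only [e]
      rw [Finset.sum_comm]
      simp only [← Finset.sum_mul, ih]
      exact hstat v
    · simp only [Fin.snoc_castSucc]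
      have e : ∀ x : Fin (t + 1) → V,
          (∑ y, if x i = v then traj P p t x * P (x (Fin.last t)) y else 0) =
          if x i = v then traj P p t x else 0 := by
        intro x
        split_ifs
        · rw [← Finset.mul_sum, h.row, mul_one]
        · simp
      simp only [e]
      exact ih i v

/-- the probability to visit `v` is at most `(t + 1) p v` -/
theorem visit_le (h : IsRevChain P p) (t : ℕ) (v : V) :
    ∑ x : Fin (t + 1) → V, (if v ∈ univ.image x then traj P p t x else 0) ≤ (t + 1) * p v := by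
  have h1 : ∀ x : Fin (t + 1) → V, (if v ∈ univ.image x then traj P p t x else 0) ≤
      ∑ i, if x i = v then traj P p t x else 0 := by
    intro x
    split_ifs with hv
    · rw [Finset.mem_image] at hv
      obtain ⟨i, _, hi⟩ := hv
      refine le_trans ?_ (Finset.single_le_sum (fun j _ => ?_) (Finset.mem_univ i))
      · rw [if_pos hi]
      · split_ifs
        · exact traj_nonneg h t x
        · exact le_rfl
    · exact Finset.sum_nonneg fun j _ => by
        split_ifs
        · exact traj_nonneg h t x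
        · exact le_rfl
  refine (Finset.sum_le_sum fun x _ => h1 x).trans ?_
  rw [Finset.sum_comm]
  simp only [marginal h]
  simp

end general

/-! ### The example: a path `0 - 1 - 2 - 3 - 4` with a heavy loop at `4`, made lazy -/

/-- total conductance of the vertices -/
def wt (D : ℝ) : Fin 5 → ℝ := ![1, 2, 2, 2, 1 + D]

/-- conductances: `1` on the edges of the path, `D` on the loop at `4` -/
def cond (D : ℝ) (x y : Fin 5) : ℝ :=
  if x.val + 1 = y.val ∨ y.val + 1 = x.val then 1 else if x = 4 ∧ y = 4 then D else 0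

/-- lazy walk -/
def PP (D : ℝ) (x y : Fin 5) : ℝ := (if x = y then 1 / 2 else 0) + cond D x y / (2 * wt D x)

/-- stationary law -/
def pp (D : ℝ) (x : Fin 5) : ℝ := wt D x / (8 + D)

theorem isChain {D : ℝ} (hD : 0 < D) : IsRevChain (PP D) (pp D) := by
  have h1 : 0 < 1 + D := by linarith
  have h8 : 0 < 8 + D := by linarith
  have hw : ∀ x, 0 < wt D x := by
    intro x; fin_cases x <;> simp [wt]; exact h1
  have hc : ∀ x y, 0 ≤ cond D x y := by
    intro x y; unfold cond; split_ifs <;> linarith
  have hsym : ∀ x y, cond D x y = cond D y x := by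
    intro x y
    unfold cond
    have e1 : (x.val + 1 = y.val ∨ y.val + 1 = x.val) ↔ (y.val + 1 = x.val ∨ x.val + 1 = y.val) :=
      Or.comm
    have e2 : (x = 4 ∧ y = 4) ↔ (y = 4 ∧ x = 4) := And.comm
    simp only [e1, e2]
  have hsum : ∀ x, ∑ y, cond D x y = wt D x := by
    intro x
    rw [Fin.sum_univ_five]
    fin_cases x <;> simp [cond, wt] <;> norm_num
  refine ⟨?_, ?_, ?_, ?_, ?_, ?_⟩
  · intro x y
    have := hc x y
    have := hw x
    unfold PP
    split_ifs <;> positivity
  · intro x
    have := (hw x).ne'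
    simp only [PP, Finset.sum_add_distrib, ← Finset.sum_div, hsum]
    rw [Finset.sum_ite_eq univ x]
    simp only [Finset.mem_univ, if_true]
    field_simp
    norm_num
  · have hstep : ∀ x y : Fin 5, (x.val + 1 = y.val ∨ y.val + 1 = x.val) → 0 < PP D x y := by
      intro x y hxy
      have h2 : cond D x y = 1 := by unfold cond; rw [if_pos hxy]
      have := hw x
      unfold PP
      rw [h2]
      split_ifs <;> positivity
    have up : ∀ n : ℕ, ∀ hn : n < 5, Relation.ReflTransGen (fun a b => 0 < PP D a b) 0 ⟨n, hn⟩ := by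
      intro n
      induction n with
      | zero => intro hn; exact Relation.ReflTransGen.refl
      | succ n ih =>
        intro hn
        exact (ih (by omega)).tail (hstep ⟨n, by omega⟩ ⟨n + 1, hn⟩ (Or.inl rfl))
    have down : ∀ n : ℕ, ∀ hn : n < 5, Relation.ReflTransGen (fun a b => 0 < PP D a b) ⟨n, hn⟩ 0 := by
      intro n
      induction n with
      | zero => intro hn; exact Relation.ReflTransGen.refl
      | succ n ih =>
        intro hn
        exact (ih (by omega)).head (hstep ⟨n + 1, hn⟩ ⟨n, by omega⟩ (Or.inr rfl))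
    exact fun x y => (down x.val x.isLt).trans (up y.val y.isLt)
  · intro x; exact div_pos (hw x) h8
  · simp only [pp, ← Finset.sum_div]
    rw [div_eq_one_iff_eq h8.ne']
    simp [wt, Fin.sum_univ_five]
    ring
  · intro x y
    unfold PP pp
    by_cases hxy : x = y
    · subst hxy; rfl
    · rw [if_neg hxy, if_neg (Ne.symm hxy), hsym y x]
      have := (hw x).ne'
      have := (hw y).ne'
      field_simp
      ring

/-- lower bound for a single walk with four steps -/
theorem single_ge {D : ℝ} (hD : 0 < D) : 1 / (128 * (8 + D)) ≤ probSingle (PP D) (pp D) 4 5 := by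
  have h := isChain hD
  unfold probSingle
  refine le_trans ?_ (Finset.single_le_sum (fun x _ => ?_) (Finset.mem_univ (id : Fin 5 → Fin 5)))
  · have hcard : 5 ≤ (univ.image (id : Fin (4 + 1) → Fin 5)).card := by decide
    rw [if_pos hcard]
    have e : traj (PP D) (pp D) 4 (id : Fin 5 → Fin 5) =
        1 / (8 + D) * (1 / 2 * (1 / 4) * (1 / 4) * (1 / 4)) := by
      simp only [traj, id, Fin.prod_univ_four]
      have p0 : pp D 0 = 1 / (8 + D) := by simp [pp, wt]
      have a : PP D 0 1 = 1 / 2 := by simp [PP, cond, wt]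
      have b : PP D 1 2 = 1 / 4 := by simp [PP, cond, wt]; norm_num
      have c : PP D 2 3 = 1 / 4 := by simp [PP, cond, wt]; norm_num
      have d : PP D 3 4 = 1 / 4 := by simp [PP, cond, wt]; norm_num
      change pp D 0 * (PP D 0 1 * PP D 1 2 * PP D 2 3 * PP D 3 4) = _
      rw [p0, a, b, c, d]
    rw [e]
    have : 8 + D ≠ 0 := by linarith
    apply le_of_eq
    field_simp
    norm_num
  · split_ifs
    · exact traj_nonneg h 4 x
    · exact le_rfl

/-- a two-step trajectory of positive probability does not visit both `0` and `3` -/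
theorem no_both {D : ℝ} (x : Fin 3 → Fin 5)
    (h0 : (0 : Fin 5) ∈ univ.image x) (h3 : (3 : Fin 5) ∈ univ.image x) :
    traj (PP D) (pp D) 2 x = 0 := by
  have hfar : ∀ u v : Fin 5, u.val + 1 < v.val ∨ v.val + 1 < u.val → PP D u v = 0 := by
    intro u v huv
    have h1 : u ≠ v := by intro h; subst h; omega
    have h2 : ¬ (u.val + 1 = v.val ∨ v.val + 1 = u.val) := by omega
    have h4 : ¬ (u = 4 ∧ v = 4) := by rintro ⟨a, b⟩; exact h1 (a.trans b.symm)
    unfold PP cond
    rw [if_neg h1, if_neg h2, if_neg h4]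
    simp
  by_contra hne
  unfold traj at hne
  rw [Fin.prod_univ_two] at hne
  have hA : PP D (x (Fin.castSucc 0)) (x (Fin.succ 0)) ≠ 0 := by
    intro h; apply hne; rw [h]; ring
  have hB : PP D (x (Fin.castSucc 1)) (x (Fin.succ 1)) ≠ 0 := by
    intro h; apply hne; rw [h]; ring
  have hA' : ¬ ((x 0).val + 1 < (x 1).val ∨ (x 1).val + 1 < (x 0).val) := fun h =>
    hA (hfar _ _ h)
  have hB' : ¬ ((x 1).val + 1 < (x 2).val ∨ (x 2).val + 1 < (x 1).val) := fun h =>
    hB (hfar _ _ h)
  rw [Finset.mem_image] at h0 h3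
  obtain ⟨i, _, hi⟩ := h0
  obtain ⟨j, _, hj⟩ := h3
  have hi' : (x i).val = 0 := by rw [hi]; rfl
  have hj' : (x j).val = 3 := by rw [hj]; rfl
  fin_cases i <;> fin_cases j <;> simp at hi' hj' <;> omega

/-- probability that a two-step walk visits `v` -/
def hit (D : ℝ) (v : Fin 5) : ℝ :=
  ∑ x : Fin 3 → Fin 5, if v ∈ univ.image x then traj (PP D) (pp D) 2 x else 0

theorem hit_le {D : ℝ} (hD : 0 < D) (v : Fin 5) : hit D v ≤ 3 * pp D v := by
  have h := visit_le (isChain hD) 2 v
  have e : ((2 : ℕ) : ℝ) + 1 = 3 := by norm_num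
  rw [e] at h
  exact h

theorem hit_nonneg {D : ℝ} (hD : 0 < D) (v : Fin 5) : 0 ≤ hit D v :=
  Finset.sum_nonneg fun x _ => by
    split_ifs
    · exact traj_nonneg (isChain hD) 2 x
    · exact le_rfl

/-- pointwise bound for a pair of trajectories -/
theorem pair_le {D : ℝ} (hD : 0 < D) (x y : Fin 3 → Fin 5) :
    (if 5 ≤ (univ.image x ∪ univ.image y).card then
      traj (PP D) (pp D) 2 x * traj (PP D) (pp D) 2 y else 0) ≤
    (if 0 ∈ univ.image x then traj (PP D) (pp D) 2 x else 0) *
      (if 3 ∈ univ.image y then traj (PP D) (pp D) 2 y else 0) +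
    (if 3 ∈ univ.image x then traj (PP D) (pp D) 2 x else 0) *
      (if 0 ∈ univ.image y then traj (PP D) (pp D) 2 y else 0) := by
  have hx := traj_nonneg (isChain hD) 2 x
  have hy := traj_nonneg (isChain hD) 2 y
  have hxy := mul_nonneg hx hy
  by_cases hc : 5 ≤ (univ.image x ∪ univ.image y).card
  · rw [if_pos hc]
    have huniv : univ.image x ∪ univ.image y = univ := by
      rw [← Finset.card_eq_iff_eq_univ]
      refine le_antisymm (Finset.card_le_univ _) ?_
      simpa using hc
    have m0 : (0 : Fin 5) ∈ univ.image x ∪ univ.image y := by rw [huniv]; exact mem_univ _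
    have m3 : (3 : Fin 5) ∈ univ.image x ∪ univ.image y := by rw [huniv]; exact mem_univ _
    rw [Finset.mem_union] at m0 m3
    by_cases a0 : (0 : Fin 5) ∈ univ.image x
    · by_cases a3 : (3 : Fin 5) ∈ univ.image x
      · have hz := no_both (D := D) x a0 a3
        rw [hz]; simp
      · have b3 := m3.resolve_left a3
        rw [if_pos a0, if_pos b3, if_neg a3, zero_mul, add_zero]
    · have b0 := m0.resolve_left a0
      by_cases a3 : (3 : Fin 5) ∈ univ.image x
      · rw [if_pos a3, if_pos b0, if_neg a0, zero_mul, zero_add]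
      · have b3 := m3.resolve_left a3
        have hz := no_both (D := D) y b0 b3
        rw [hz]; simp
  · rw [if_neg hc]
    refine add_nonneg (mul_nonneg ?_ ?_) (mul_nonneg ?_ ?_) <;>
    · split_ifs
      · assumption
      · exact le_rfl

theorem union_eq (D : ℝ) : probUnion (PP D) (pp D) ![2, 2] 5 =
    ∑ x : Fin 3 → Fin 5, ∑ y : Fin 3 → Fin 5,
      (if 5 ≤ (univ.image x ∪ univ.image y).card then
        traj (PP D) (pp D) 2 x * traj (PP D) (pp D) 2 y else 0) := by
  unfold probUnion
  rw [← Fintype.sum_prod_type']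
  rw [← (piFinTwoEquiv fun i : Fin 2 => (Fin ((![2, 2] : Fin 2 → ℕ) i + 1) → Fin 5)).symm.sum_comp]
  refine Finset.sum_congr rfl fun z _ => ?_
  rw [Fin.prod_univ_two]
  have hb : (univ.biUnion fun i : Fin 2 => univ.image
      ((piFinTwoEquiv fun i : Fin 2 => (Fin ((![2, 2] : Fin 2 → ℕ) i + 1) → Fin 5)).symm z i)) =
      univ.image z.1 ∪ univ.image z.2 := by
    ext v
    simp only [Finset.mem_biUnion, Finset.mem_univ, true_and, Finset.mem_union, Fin.exists_fin_two]
    rfl
  rw [hb]
  rfl

theorem union_le {D : ℝ} (hD : 0 < D) :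
    probUnion (PP D) (pp D) ![2, 2] 5 ≤ 36 / (8 + D) ^ 2 := by
  rw [union_eq]
  refine (Finset.sum_le_sum fun x _ => Finset.sum_le_sum fun y _ => pair_le hD x y).trans ?_
  have e : ∑ x : Fin 3 → Fin 5, ∑ y : Fin 3 → Fin 5,
      ((if 0 ∈ univ.image x then traj (PP D) (pp D) 2 x else 0) *
      (if 3 ∈ univ.image y then traj (PP D) (pp D) 2 y else 0) +
    (if 3 ∈ univ.image x then traj (PP D) (pp D) 2 x else 0) *
      (if 0 ∈ univ.image y then traj (PP D) (pp D) 2 y else 0)) =
      hit D 0 * hit D 3 + hit D 3 * hit D 0 := by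
    simp only [Finset.sum_add_distrib, ← Finset.mul_sum, ← Finset.sum_mul]
    rfl
  rw [e]
  have h8 : 0 < 8 + D := by linarith
  have p0 : pp D 0 = 1 / (8 + D) := by simp [pp, wt]
  have p3 : pp D 3 = 2 / (8 + D) := by simp [pp, wt]
  have a := hit_le hD 0
  have b := hit_le hD 3
  rw [p0] at a
  rw [p3] at b
  have h := mul_le_mul a b (hit_nonneg hD 3) (by positivity)
  have e2 : 3 * (1 / (8 + D)) * (3 * (2 / (8 + D))) = 18 / (8 + D) ^ 2 := by
    field_simp
    norm_num
  rw [e2] at h
  have e3 : 36 / (8 + D) ^ 2 = 18 / (8 + D) ^ 2 + 18 / (8 + D) ^ 2 := by ring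
  rw [e3, mul_comm (hit D 3)]
  exact add_le_add h h

/-- The stochastic domination fails, even for lazy chains, and even up to any constant factor:
for every `ε > 0` there is an irreducible `1/2`-lazy reversible chain on five states, with
stationary law `p`, such that with `k = 2`, `t₁ = t₂ = 2`, `y = 5` one has
`P_{p²}(|R₁(2) ∪ R₂(2)| ≥ 5) < ε P_p(|R(4)| ≥ 5)`. -/
theorem result : ∀ ε : ℝ, 0 < ε → ∃ (P : Fin 5 → Fin 5 → ℝ) (p : Fin 5 → ℝ),
    IsRevChain P p ∧ (∀ x, 1 / 2 ≤ P x x) ∧ 0 < probSingle P p 4 5 ∧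
    probUnion P p ![2, 2] 5 < ε * probSingle P p 4 5 := by
  intro ε hε
  set D : ℝ := 4608 / ε with hDdef
  have hD : 0 < D := by positivity
  have h8 : 0 < 8 + D := by linarith
  refine ⟨PP D, pp D, isChain hD, ?_, ?_, ?_⟩
  · intro x
    have hw : 0 < wt D x := by
      fin_cases x <;> simp [wt]; linarith
    have hc : 0 ≤ cond D x x := by
      unfold cond; split_ifs <;> linarith
    unfold PP
    rw [if_pos rfl]
    have : 0 ≤ cond D x x / (2 * wt D x) := by positivity
    linarith
  · exact lt_of_lt_of_le (by positivity) (single_ge hD)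
  · have h1 := single_ge hD
    have h2 := union_le hD
    have h3 : 36 / (8 + D) ^ 2 < ε * (1 / (128 * (8 + D))) := by
      rw [mul_one_div, div_lt_div_iff₀ (by positivity) (by positivity)]
      have h4 : ε * D = 4608 := by rw [hDdef]; field_simp
      have h5 : ε * (8 + D) ^ 2 = (8 + D) * (8 * ε + ε * D) := by ring
      rw [h5, h4]
      nlinarith [mul_pos h8 hε]
    calc probUnion (PP D) (pp D) ![2, 2] 5 ≤ 36 / (8 + D) ^ 2 := h2
      _ < ε * (1 / (128 * (8 + D))) := h3
      _ ≤ ε * probSingle (PP D) (pp D) 4 5 := by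
        exact mul_le_mul_of_nonneg_left h1 hε.le

end

end Pool.Agent.Results.MP_55034c_pr.NoDominance
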